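import Mathlib
import Pool.Agent.Q184.Ball.Transfer

/-!
# Products of emu-bounded balleans are emu-bounded
-/

universe u v

open Set

namespace Pool.Agent.Results.MP_da2089_gt.EmuProduct

variable {X : Type u} {Y : Type v}

/-- A ballean (coarse space): a family of entourages that contains the diagonal, is closed under
subsets, finite unions, inverses and composition, and has union `X × X`. -/
structure IsBallean (𝓔 : Set (Set (X × X))) : Prop where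
  diag : {p : X × X | p.1 = p.2} ∈ 𝓔
  subset : ∀ E ∈ 𝓔, ∀ F, F ⊆ E → F ∈ 𝓔
  union : ∀ E ∈ 𝓔, ∀ F ∈ 𝓔, E ∪ F ∈ 𝓔
  inv : ∀ E ∈ 𝓔, {p : X × X | (p.2, p.1) ∈ E} ∈ 𝓔
  comp : ∀ E ∈ 𝓔, ∀ F ∈ 𝓔, {p : X × X | ∃ y, (p.1, y) ∈ E ∧ (y, p.2) ∈ F} ∈ 𝓔
  cover : ⋃₀ 𝓔 = univ

/-- The ball `E[x] = {y : (x, y) ∈ E}`. -/
def ball (E : Set (X × X)) (x : X) : Set X := {y | (x, y) ∈ E}

/-- Bounded sets: subsets of balls. -/
def Bounded (𝓔 : Set (Set (X × X))) (B : Set X) : Prop := ∃ E ∈ 𝓔, ∃ x, B ⊆ ball E x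

/-- Eventually macro-uniform functions: for every `E ∈ 𝓔` there is a bounded `B` with
`sup_{x ∉ B} diam f(E[x]) < ∞`. -/
def EventuallyMacroUniform (𝓔 : Set (Set (X × X))) (f : X → ℝ) : Prop :=
  ∀ E ∈ 𝓔, ∃ B, Bounded 𝓔 B ∧ (⨆ x ∈ Bᶜ, Metric.ediam (f '' ball E x)) < ⊤

/-- emu-bounded balleans: every eventually macro-uniform function is bounded off a bounded
set. -/
def EmuBounded (𝓔 : Set (Set (X × X))) : Prop :=
  ∀ f : X → ℝ, EventuallyMacroUniform 𝓔 f → ∃ B, Bounded 𝓔 B ∧ ∃ K : ℝ, ∀ x, x ∉ B → |f x| ≤ K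

/-- The entourage `{((x,y),(x',y')) : (x,x') ∈ E, (y,y') ∈ F}` of the product. -/
def prodEntourage (E : Set (X × X)) (F : Set (Y × Y)) : Set ((X × Y) × (X × Y)) :=
  {p | (p.1.1, p.2.1) ∈ E ∧ (p.1.2, p.2.2) ∈ F}

/-- The entourages of the product ballean: the subsets of the product entourages. -/
def prodStructure (𝓔 : Set (Set (X × X))) (𝓕 : Set (Set (Y × Y))) :
    Set (Set ((X × Y) × (X × Y))) :=
  {S | ∃ E ∈ 𝓔, ∃ F ∈ 𝓕, S ⊆ prodEntourage E F}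

theorem IsBallean.isBall {𝓔 : Set (Set (X × X))} (h : IsBallean 𝓔) : Q184.Ball.IsBall 𝓔 where
  refl E hE := ⟨_, h.union E hE _ h.diag, subset_union_left, fun _ => Or.inr rfl⟩
  comp E hE F hF := ⟨_, h.comp E hE _ (h.inv F hF), fun _ y _ hxy hzy => ⟨y, hxy, hzy⟩⟩
  cover x y := by
    have : (x, y) ∈ ⋃₀ 𝓔 := by rw [h.cover]; exact mem_univ _
    obtain ⟨E, hE, hxy⟩ := this
    exact ⟨E, hE, hxy⟩

theorem osc_of_emu {𝓔 : Set (Set (X × X))} {f : X → ℝ} (h : EventuallyMacroUniform 𝓔 f)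
    {E : Set (X × X)} (hE : E ∈ 𝓔) : ∃ K : ℝ, 0 ≤ K ∧ Q184.Ball.Osc 𝓔 f E K := by
  obtain ⟨B, hB, hb⟩ := h E hE
  refine ⟨(⨆ x ∈ Bᶜ, Metric.ediam (f '' ball E x)).toReal, ENNReal.toReal_nonneg, B, hB,
    fun x hx => ?_⟩
  rw [← Q184.Ball.ediam_image_le ENNReal.toReal_nonneg, ENNReal.ofReal_toReal hb.ne]
  exact le_iSup₂ (f := fun x (_ : x ∈ Bᶜ) => Metric.ediam (f '' Q184.Ball.ball E x)) x hx

theorem emu_of_osc {𝓔 : Set (Set (X × X))} {f : X → ℝ}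
    (h : ∀ E ∈ 𝓔, ∃ K : ℝ, 0 ≤ K ∧ Q184.Ball.Osc 𝓔 f E K) : EventuallyMacroUniform 𝓔 f := by
  intro E hE
  obtain ⟨K, hK0, B, hB, hb⟩ := h E hE
  refine ⟨B, hB, ?_⟩
  refine lt_of_le_of_lt (iSup₂_le fun x hx => ?_) (ENNReal.ofReal_lt_top (r := K))
  exact (Q184.Ball.ediam_image_le hK0).mpr (hb x hx)

/-- For any two emu-bounded balleans `X`, `Y` the product ballean `X × Y` is emu-bounded. -/
theorem result {X : Type u} {Y : Type v} (𝓔 : Set (Set (X × X))) (𝓕 : Set (Set (Y × Y)))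
    (h𝓔 : IsBallean 𝓔) (h𝓕 : IsBallean 𝓕) (hX : EmuBounded 𝓔) (hY : EmuBounded 𝓕) :
    EmuBounded (prodStructure 𝓔 𝓕) := by
  intro f hf
  have hP1 : ∀ S ∈ prodStructure 𝓔 𝓕, ∃ E ∈ 𝓔, ∃ F ∈ 𝓕, S ⊆ Q184.Ball.rect E F := fun S hS => hS
  have hP2 : ∀ E ∈ 𝓔, ∀ F ∈ 𝓕, Q184.Ball.rect E F ∈ prodStructure 𝓔 𝓕 :=
    fun E hE F hF => ⟨E, hE, F, hF, Subset.rfl⟩
  refine Q184.Ball.prod_core h𝓔.isBall h𝓕.isBall (prodStructure 𝓔 𝓕) hP1 hP2 f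
    (fun S hS => by
      obtain ⟨K, -, hK⟩ := osc_of_emu hf hS
      exact ⟨K, hK⟩) ?_ ?_
  · intro g hg
    refine hX g (emu_of_osc fun E hE => ?_)
    obtain ⟨E', hE', hsub, hr⟩ := h𝓔.isBall.refl E hE
    obtain ⟨K, hK0, hK⟩ := osc_of_emu hf (hP2 _ hE' _ h𝓕.diag)
    refine ⟨K, hK0, Q184.Ball.Osc.mono ?_ hsub⟩
    exact hg E' hE' _ h𝓕.diag hr (fun _ => rfl) K hK0 hK
  · intro g hg
    refine hY g (emu_of_osc fun E hE => ?_)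
    obtain ⟨E', hE', hsub, hr⟩ := h𝓕.isBall.refl E hE
    obtain ⟨K, hK0, hK⟩ := osc_of_emu hf (hP2 _ h𝓔.diag _ hE')
    refine ⟨K, hK0, Q184.Ball.Osc.mono ?_ hsub⟩
    exact hg _ h𝓔.diag E' hE' (fun _ => rfl) hr K hK0 hK

end Pool.Agent.Results.MP_da2089_gt.EmuProduct
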